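import Pool.Agent.Helper99.DF.St

set_option autoImplicit false

namespace Pool.Agent.Helper60.DF

open Filter Topology
open Pool.Agent.Helper99.DF

lemma tendsto_two_pow_mul {s : ℝ} (hs : 0 < s) :
    Tendsto (fun t : ℕ => Real.exp (-(2 ^ t * s))) atTop (𝓝 0) := by
  refine Real.tendsto_exp_neg_atTop_nhds_zero.comp ?_
  exact (tendsto_pow_atTop_atTop_of_one_lt one_lt_two).atTop_mul_const hs

lemma gg_tendsto {S : Finset ℕ} {b al F : ℕ → ℝ} {Z : Finset ℕ} {c0 C : ℝ}
    (h : Dat S b al F Z c0 C) {k : ℕ} (hk : k ∈ S) :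
    Tendsto (fun t => gg b al t k) atTop (𝓝 (F k)) := by
  have h1 : Tendsto (fun t : ℕ => C * Real.exp (-(c0 * 2 ^ t))) atTop (𝓝 0) := by
    have h2 := (tendsto_two_pow_mul h.c0pos).const_mul C
    rw [mul_zero] at h2
    refine h2.congr fun t => ?_
    rw [mul_comm c0]
  rw [tendsto_iff_norm_sub_tendsto_zero]
  refine squeeze_zero (fun t => norm_nonneg _) (fun t => ?_) h1
  rw [Real.norm_eq_abs]
  exact h.rate t k hk

lemma exp_zpow' (x : ℝ) (n : ℤ) : Real.exp x ^ n = Real.exp (n * x) := by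
  rw [← Real.rpow_intCast, ← Real.exp_mul, mul_comm]

lemma uu_eq {S : Finset ℕ} {b al F : ℕ → ℝ} {Z : Finset ℕ} {c0 C : ℝ}
    (h : Dat S b al F Z c0 C) {k : ℕ} (hk : k ∈ act S) (t : ℕ) :
    uu b t k = Real.exp (-(2 ^ t * cc al k)) *
      (gg b al t (k - 1) * gg b al t (k + 1) / gg b al t k ^ 2) := by
  obtain ⟨h1, h2, h3⟩ := mem_act.1 hk
  have hB := h.per.pos (t := t) h1
  have hE : Real.exp (-(2 ^ t * cc al k)) *
      (Real.exp (-(2 ^ t * al (k - 1))) * Real.exp (-(2 ^ t * al (k + 1)))) =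
      Real.exp (-(2 ^ t * al k)) ^ 2 := by
    rw [← Real.exp_add, ← Real.exp_add, ← Real.exp_nat_mul]
    congr 1
    unfold cc
    push_cast
    ring
  unfold uu gg
  rw [mul_pow, ← hE]
  have e0 := (Real.exp_pos (-(2 ^ t * cc al k))).ne'
  have e1 := (Real.exp_pos (-(2 ^ t * al (k - 1)))).ne'
  have e2 := (Real.exp_pos (-(2 ^ t * al (k + 1)))).ne'
  field_simp

theorem hDOM : StDOM := by
  intro S b al F Z c0 C h J hJ hli E hE hEJ
  obtain ⟨γ, hγ, hmin⟩ := Finset.exists_min_image E (fun e => ∑ k ∈ Z, (e k : ℝ) * cc al k) hE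
  refine ⟨γ, hγ, fun e he => ?_⟩
  have hs : 0 ≤ ∑ k ∈ Z, ((e k : ℝ) - γ k) * cc al k := by
    simp only [sub_mul, Finset.sum_sub_distrib]
    linarith [hmin e he]
  rcases eq_or_lt_of_le hs with h0 | hpos
  · left
    have hz : ∀ k ∈ Z, k ∉ J → e k = 0 ∧ γ k = 0 := by
      intro k hk hkJ
      constructor
      · by_contra hne
        exact hkJ (hEJ e he k hk hne)
      · by_contra hne
        exact hkJ (hEJ γ hγ k hk hne)
    have h1 : ∑ k ∈ J, (((e k : ℤ) - (γ k : ℤ) : ℤ) : ℝ) * cc al k = 0 := by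
      rw [h0]
      rw [Finset.sum_subset hJ]
      · refine Finset.sum_congr rfl fun k _ => ?_
        push_cast
        ring
      · intro k hk hkJ
        rw [(hz k hk hkJ).1, (hz k hk hkJ).2]
        simp
    have h2 := hli (fun k => (e k : ℤ) - (γ k : ℤ)) h1
    intro k hk
    by_cases hkJ : k ∈ J
    · have := h2 k hkJ
      omega
    · rw [(hz k hk hkJ).1, (hz k hk hkJ).2]
  · right
    set r : ℕ → ℕ → ℝ := fun t k => gg b al t (k - 1) * gg b al t (k + 1) / gg b al t k ^ 2 with hr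
    have hact : ∀ k ∈ Z, k ∈ act S := fun k hk => h.ZS hk
    have hupos : ∀ t, ∀ k ∈ Z, 0 < uu b t k := by
      intro t k hk
      obtain ⟨h1, h2, h3⟩ := mem_act.1 (hact k hk)
      unfold uu
      have a1 := h.per.pos (t := t) h1
      have a2 := h.per.pos (t := t) h2
      have a3 := h.per.pos (t := t) h3
      positivity
    have heq : ∀ t, (∏ k ∈ Z, uu b t k ^ (e k)) / ∏ k ∈ Z, uu b t k ^ (γ k) =
        Real.exp (-(2 ^ t * ∑ k ∈ Z, ((e k : ℝ) - γ k) * cc al k)) *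
          ∏ k ∈ Z, r t k ^ ((e k : ℤ) - (γ k : ℤ)) := by
      intro t
      rw [← Finset.prod_div_distrib]
      have e1 : ∀ k ∈ Z, uu b t k ^ (e k) / uu b t k ^ (γ k) =
          Real.exp (-(2 ^ t * (((e k : ℝ) - γ k) * cc al k))) * r t k ^ ((e k : ℤ) - (γ k : ℤ)) := by
        intro k hk
        rw [← zpow_natCast, ← zpow_natCast, ← zpow_sub₀ (hupos t k hk).ne', uu_eq h (hact k hk) t,
          mul_zpow, exp_zpow']
        congr 2
        push_cast
        ring
      rw [Finset.prod_congr rfl e1, Finset.prod_mul_distrib, ← Real.exp_sum, Finset.mul_sum,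
        Finset.sum_neg_distrib]
    simp only [heq]
    have hrt : Tendsto (fun t => ∏ k ∈ Z, r t k ^ ((e k : ℤ) - (γ k : ℤ))) atTop
        (𝓝 (∏ k ∈ Z, (F (k - 1) * F (k + 1) / F k ^ 2) ^ ((e k : ℤ) - (γ k : ℤ)))) := by
      refine tendsto_finsetProd _ fun k hk => ?_
      obtain ⟨h1, h2, h3⟩ := mem_act.1 (hact k hk)
      have f1 : 0 < F k := lt_of_lt_of_le one_pos (h.F1 k h1)
      have f2 : 0 < F (k - 1) := lt_of_lt_of_le one_pos (h.F1 _ h2)
      have f3 : 0 < F (k + 1) := lt_of_lt_of_le one_pos (h.F1 _ h3)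
      have t1 : Tendsto (fun t => r t k) atTop (𝓝 (F (k - 1) * F (k + 1) / F k ^ 2)) :=
        ((gg_tendsto h h2).mul (gg_tendsto h h3)).div ((gg_tendsto h h1).pow 2) (by positivity)
      exact t1.zpow₀ _ (Or.inl (by positivity))
    have hfin := (tendsto_two_pow_mul hpos).mul hrt
    rw [zero_mul] at hfin
    exact hfin

end Pool.Agent.Helper60.DF
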